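import Pool.Agent.W802.DS.Stms

set_option autoImplicit false

namespace W237.DS.E

open Polynomial Filter Topology

theorem main : W802.DS.S_E := by
  intro B α
  refine ⟨B.natDegree, C (α : ℂ) * X ^ B.natDegree - C (1 / 2 : ℂ) * (X ^ B.natDegree * B +
    ∑ k ∈ Finset.range (B.natDegree + 1), C ((starRingEnd ℂ) (B.coeff k)) * X ^ (B.natDegree - k)), ?_⟩
  intro z hz
  have hzz : z * (starRingEnd ℂ) z = 1 := by
    rw [Complex.mul_conj, Complex.normSq_eq_norm_sq, hz]; norm_num
  have h1 : z ^ B.natDegree * (starRingEnd ℂ) (B.eval z) =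
      ∑ k ∈ Finset.range (B.natDegree + 1), (starRingEnd ℂ) (B.coeff k) * z ^ (B.natDegree - k) := by
    rw [eval_eq_sum_range, map_sum, Finset.mul_sum]
    refine Finset.sum_congr rfl fun k hk => ?_
    have hk' : k ≤ B.natDegree := by
      have := Finset.mem_range.1 hk; omega
    rw [map_mul, map_pow]
    have h2 : z ^ B.natDegree = z ^ (B.natDegree - k) * z ^ k := by
      rw [← pow_add]; congr 1; omega
    have h3 : z ^ k * (starRingEnd ℂ) z ^ k = 1 := by rw [← mul_pow, hzz, one_pow]
    rw [h2]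
    linear_combination (starRingEnd ℂ) (B.coeff k) * z ^ (B.natDegree - k) * h3
  have h4 : (((B.eval z).re : ℝ) : ℂ) = (B.eval z + (starRingEnd ℂ) (B.eval z)) / 2 :=
    Complex.re_eq_add_conj _
  simp only [eval_sub, eval_mul, eval_C, eval_pow, eval_X, eval_add, eval_finset_sum]
  rw [← h1]
  push_cast
  rw [h4]
  ring

end W237.DS.E
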