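import Pool.Agent.W802.DS.Stms

set_option autoImplicit false

namespace W237.DS.ED

open Polynomial Filter Topology Real MeasureTheory

theorem pow_e (N : ℕ) (t : ℝ) : (circleMap 0 1 t) ^ N = circleMap 0 1 ((N : ℝ) * t) := by
  rw [circleMap_zero, circleMap_zero]
  rw [mul_pow, ← Complex.exp_nat_mul]
  simp
  ring_nf

theorem shift_int (f : ℝ → ℝ) (hf : Function.Periodic f (2 * π)) (η : ℝ) :
    ∫ t in (0 : ℝ)..2 * π, f (t + η) = ∫ t in (0 : ℝ)..2 * π, f t := by
  rw [intervalIntegral.integral_comp_add_right f]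
  have := hf.intervalIntegral_add_eq 0 η
  rw [zero_add, add_comm] at this
  rw [zero_add]
  rw [add_comm] at this ⊢
  rw [← this]

theorem uc (K : ℂ × ℂ → ℝ) (hK : Continuous K) (ε : ℝ) (hε : 0 < ε) :
    ∃ δ : ℝ, 0 < δ ∧ ∀ s s' t : ℝ, |s - s'| < δ →
      |K (circleMap 0 1 s, circleMap 0 1 t) - K (circleMap 0 1 s', circleMap 0 1 t)| < ε := by
  have hc : IsCompact (Metric.closedBall (0 : ℂ) 1 ×ˢ Metric.closedBall (0 : ℂ) 1) :=
    (isCompact_closedBall 0 1).prod (isCompact_closedBall 0 1)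
  have hu := hc.uniformContinuousOn_of_continuous hK.continuousOn
  rw [Metric.uniformContinuousOn_iff] at hu
  obtain ⟨δ, hδ, h⟩ := hu ε hε
  refine ⟨δ, hδ, fun s s' t hs => ?_⟩
  have hmem : ∀ t : ℝ, circleMap 0 1 t ∈ Metric.closedBall (0 : ℂ) 1 := by
    intro t
    have : circleMap 0 1 t ∈ Metric.sphere (0 : ℂ) 1 := circleMap_mem_sphere 0 zero_le_one t
    exact Metric.sphere_subset_closedBall this
  have := h (circleMap 0 1 s, circleMap 0 1 t) ⟨hmem s, hmem t⟩ (circleMap 0 1 s', circleMap 0 1 t)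
    ⟨hmem s', hmem t⟩ ?_
  · rwa [Real.dist_eq] at this
  · rw [Prod.dist_eq]
    simp only [dist_self]
    have hl := (lipschitzWith_circleMap 0 1).dist_le_mul s s'
    have h1 : ((Real.nnabs 1 : NNReal) : ℝ) = 1 := by simp
    rw [h1, one_mul, Real.dist_eq] at hl
    rw [max_lt_iff]
    exact ⟨lt_of_le_of_lt hl hs, hδ⟩

theorem est (K : ℂ × ℂ → ℝ) (hK : Continuous K) (ε δ : ℝ) (hε : 0 < ε)
    (h : ∀ s s' t : ℝ, |s - s'| < δ →
      |K (circleMap 0 1 s, circleMap 0 1 t) - K (circleMap 0 1 s', circleMap 0 1 t)| < ε)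
    (N : ℕ) (hN : 1 ≤ N) (hNδ : 2 * π / N < δ) :
    |(2 * π) * (∫ t in (0 : ℝ)..2 * π, K (circleMap 0 1 t, circleMap 0 1 (N * t))) -
      ∫ t in (0 : ℝ)..2 * π, ∫ s in (0 : ℝ)..2 * π, K (circleMap 0 1 t, circleMap 0 1 s)|
      ≤ (2 * π) * (2 * π) * ε := by
  have hN0 : (0 : ℝ) < N := by exact_mod_cast hN
  have he : Continuous (circleMap 0 1) := continuous_circleMap 0 1
  have hper : Function.Periodic (circleMap 0 1) (2 * π) := periodic_circleMap 0 1
  have h2π : (0 : ℝ) ≤ 2 * π := by positivity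
  set I : ℝ := ∫ t in (0 : ℝ)..2 * π, K (circleMap 0 1 t, circleMap 0 1 (N * t)) with hI
  -- J
  set J : ℝ → ℝ := fun φ => ∫ t in (0 : ℝ)..2 * π, K (circleMap 0 1 t, circleMap 0 1 (N * t + φ)) with hJ
  have hcontF : Continuous (fun p : ℝ × ℝ => K (circleMap 0 1 p.2, circleMap 0 1 (N * p.2 + p.1))) := by
    refine hK.comp ?_
    refine (he.comp continuous_snd).prodMk (he.comp ?_)
    exact (continuous_const.mul continuous_snd).add continuous_fst
  have hJc : Continuous J := by
    exact intervalIntegral.continuous_parametric_intervalIntegral_of_continuous' hcontF 0 (2 * π)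
  have hdiff : ∀ φ ∈ Set.uIoc 0 (2 * π), ‖I - J φ‖ ≤ ε * (2 * π) := by
    intro φ hφ
    rw [Set.uIoc_of_le h2π] at hφ
    have e1 : I = ∫ t in (0 : ℝ)..2 * π, K (circleMap 0 1 (t + φ / N), circleMap 0 1 (N * t + φ)) := by
      rw [hI]
      have := shift_int (fun t => K (circleMap 0 1 t, circleMap 0 1 (N * t))) ?_ (φ / N)
      · rw [← this]
        refine intervalIntegral.integral_congr fun t _ => ?_
        show K (_, _) = K (_, _)
        congr 3
        field_simp
      · intro t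
        show K (_, _) = K (_, _)
        rw [hper t]
        congr 2
        rw [mul_add]
        exact (hper.nat_mul N) _
    have c1 : Continuous fun t : ℝ => K (circleMap 0 1 (t + φ / N), circleMap 0 1 (N * t + φ)) := by
      refine hK.comp ?_
      refine (he.comp ?_).prodMk (he.comp ?_)
      · fun_prop
      · fun_prop
    have c2 : Continuous fun t : ℝ => K (circleMap 0 1 t, circleMap 0 1 (N * t + φ)) := by
      refine hK.comp ?_
      refine he.prodMk (he.comp ?_)
      fun_prop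
    rw [e1, hJ]
    simp only
    rw [← intervalIntegral.integral_sub (c1.intervalIntegrable _ _) (c2.intervalIntegrable _ _)]
    have := intervalIntegral.norm_integral_le_of_norm_le_const (a := (0 : ℝ)) (b := 2 * π) (C := ε)
      (f := fun t : ℝ => K (circleMap 0 1 (t + φ / N), circleMap 0 1 (N * t + φ)) -
        K (circleMap 0 1 t, circleMap 0 1 (N * t + φ))) ?_
    · rwa [sub_zero, abs_of_nonneg h2π] at this
    · intro t _
      rw [Real.norm_eq_abs]
      refine (h _ _ _ ?_).le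
      rw [add_sub_cancel_left, abs_of_nonneg (by have := hφ.1; positivity)]
      refine lt_of_le_of_lt ?_ hNδ
      gcongr
      exact hφ.2
  have hsum : ‖∫ φ in (0 : ℝ)..2 * π, (I - J φ)‖ ≤ ε * (2 * π) * |2 * π - 0| :=
    intervalIntegral.norm_integral_le_of_norm_le_const hdiff
  have hcong : ∫ φ in (0 : ℝ)..2 * π, (I - J φ) = (2 * π) * I -
      ∫ t in (0 : ℝ)..2 * π, ∫ s in (0 : ℝ)..2 * π, K (circleMap 0 1 t, circleMap 0 1 s) := by
    rw [intervalIntegral.integral_sub (continuous_const.intervalIntegrable _ _)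
      (hJc.intervalIntegrable _ _)]
    rw [intervalIntegral.integral_const, sub_zero, smul_eq_mul]
    congr 1
    rw [hJ]
    rw [MeasureTheory.intervalIntegral_intervalIntegral_swap]
    · refine intervalIntegral.integral_congr fun t _ => ?_
      show (∫ φ in (0 : ℝ)..2 * π, K (circleMap 0 1 t, circleMap 0 1 (N * t + φ))) = _
      have := shift_int (fun s => K (circleMap 0 1 t, circleMap 0 1 s)) ?_ (N * t)
      · rw [← this]
        refine intervalIntegral.integral_congr fun s _ => ?_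
        show K (_, _) = K (_, _)
        rw [add_comm]
      · intro s
        show K (_, _) = K (_, _)
        rw [hper s]
    · have : Continuous (Function.uncurry fun (x : ℝ) (y : ℝ) =>
          K (circleMap 0 1 y, circleMap 0 1 (N * y + x))) := hcontF
      have h3 : IntegrableOn (Function.uncurry fun (x : ℝ) (y : ℝ) =>
          K (circleMap 0 1 y, circleMap 0 1 (N * y + x)))
          (Set.uIcc 0 (2 * π) ×ˢ Set.uIcc 0 (2 * π)) (volume.prod volume) :=
        this.continuousOn.integrableOn_compact (isCompact_uIcc.prod isCompact_uIcc)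
      exact h3.mono_set (Set.prod_mono Set.uIoc_subset_uIcc Set.uIoc_subset_uIcc)
  rw [hcong, sub_zero, abs_of_nonneg h2π, Real.norm_eq_abs] at hsum
  calc _ ≤ _ := hsum
    _ = _ := by ring

theorem main : W802.DS.S_ED := by
  intro K hK
  rw [Metric.tendsto_atTop]
  intro ε hε
  obtain ⟨δ, hδ, h⟩ := uc K hK (ε / 2) (half_pos hε)
  obtain ⟨N0, hN0⟩ := exists_nat_gt (2 * π / δ)
  have h2π : (0 : ℝ) < 2 * π := by positivity
  refine ⟨N0 + 1, fun N hN => ?_⟩
  have hN1 : 1 ≤ N := by omega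
  have hNpos : (0 : ℝ) < N := by exact_mod_cast hN1
  have hlt : 2 * π / N < δ := by
    rw [div_lt_iff₀ hNpos]
    rw [div_lt_iff₀ hδ] at hN0
    have : (N0 : ℝ) ≤ N := by exact_mod_cast (by omega : N0 ≤ N)
    nlinarith
  have hest := est K hK (ε / 2) δ (half_pos hε) h N hN1 hlt
  rw [Real.dist_eq]
  have e1 : W802.DS.cav (fun z => K (z, z ^ N)) =
      (2 * π)⁻¹ * ∫ t in (0 : ℝ)..2 * π, K (circleMap 0 1 t, circleMap 0 1 (N * t)) := by
    unfold W802.DS.cav
    rw [Real.circleAverage_def, smul_eq_mul]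
    congr 1
    refine intervalIntegral.integral_congr fun t _ => ?_
    show K (_, _) = K (_, _)
    rw [pow_e]
  have e2 : W802.DS.cav (fun z => W802.DS.cav fun w => K (z, w)) =
      (2 * π)⁻¹ * ((2 * π)⁻¹ * ∫ t in (0 : ℝ)..2 * π, ∫ s in (0 : ℝ)..2 * π,
        K (circleMap 0 1 t, circleMap 0 1 s)) := by
    unfold W802.DS.cav
    rw [Real.circleAverage_def, smul_eq_mul]
    congr 1
    rw [← intervalIntegral.integral_const_mul]
    refine intervalIntegral.integral_congr fun t _ => ?_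
    show Real.circleAverage (fun w => K (circleMap 0 1 t, w)) 0 1 = _
    rw [Real.circleAverage_def, smul_eq_mul]
  rw [e1, e2]
  set A := ∫ t in (0 : ℝ)..2 * π, K (circleMap 0 1 t, circleMap 0 1 (N * t))
  set L := ∫ t in (0 : ℝ)..2 * π, ∫ s in (0 : ℝ)..2 * π, K (circleMap 0 1 t, circleMap 0 1 s)
  have e3 : (2 * π)⁻¹ * A - (2 * π)⁻¹ * ((2 * π)⁻¹ * L) = ((2 * π) * A - L) / ((2 * π) * (2 * π)) := by
    field_simp
  rw [e3, abs_div, abs_of_pos (by positivity : (0 : ℝ) < (2 * π) * (2 * π))]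
  rw [div_lt_iff₀ (by positivity)]
  have : (2 * π) * (2 * π) * (ε / 2) < ε * ((2 * π) * (2 * π)) := by
    have : (0 : ℝ) < (2 * π) * (2 * π) := by positivity
    nlinarith
  linarith

end W237.DS.ED
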