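import Pool.Agent.W802.DS.Stms

set_option autoImplicit false

namespace W237.DS.TV

open Polynomial Filter Topology Real MeasureTheory

/-- elements of the span of the Fourier monomials -/
theorem span_re (g : C(AddCircle (1 : ℝ), ℂ))
    (hg : g ∈ Submodule.span ℂ (Set.range (@fourier (1 : ℝ)))) :
    ∀ c : ℂ, ∃ B : ℂ[X], ∀ x : AddCircle (1 : ℝ),
      (c * g x).re = (B.eval (AddCircle.toCircle x : ℂ)).re := by
  induction hg using Submodule.span_induction with
  | mem g hg =>
    obtain ⟨n, rfl⟩ := hg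
    intro c
    rcases le_total 0 n with hn | hn
    · obtain ⟨k, rfl⟩ := Int.eq_ofNat_of_zero_le hn
      refine ⟨C c * X ^ k, fun x => ?_⟩
      rw [fourier_apply, AddCircle.toCircle_zsmul]
      simp
    · obtain ⟨k, hk⟩ := Int.eq_ofNat_of_zero_le (neg_nonneg.2 hn)
      have hn' : n = -(k : ℤ) := by omega
      subst hn'
      refine ⟨C ((starRingEnd ℂ) c) * X ^ k, fun x => ?_⟩
      rw [fourier_neg]
      rw [fourier_apply, AddCircle.toCircle_zsmul]
      simp only [eval_mul, eval_C, eval_pow, eval_X]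
      rw [← Complex.conj_re (c * _), map_mul, Complex.conj_conj]
      simp
  | zero =>
    intro c
    exact ⟨0, fun x => by simp⟩
  | add g1 g2 _ _ h1 h2 =>
    intro c
    obtain ⟨B1, hB1⟩ := h1 c
    obtain ⟨B2, hB2⟩ := h2 c
    refine ⟨B1 + B2, fun x => ?_⟩
    rw [ContinuousMap.add_apply, mul_add, Complex.add_re, hB1, hB2, eval_add, Complex.add_re]
  | smul a g _ h =>
    intro c
    obtain ⟨B, hB⟩ := h (c * a)
    refine ⟨B, fun x => ?_⟩
    rw [← hB, ContinuousMap.smul_apply, smul_eq_mul, mul_assoc]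

theorem approx (F : ℂ → ℝ) (hF : Continuous F) (τ : ℝ) (hτ : 0 < τ) :
    ∃ B : ℂ[X], ∀ z : ℂ, ‖z‖ = 1 → |F z - (B.eval z).re| < τ := by
  let G : C(AddCircle (1 : ℝ), ℂ) :=
    ⟨fun x => ((F (AddCircle.toCircle x : ℂ) : ℝ) : ℂ), by
      refine Complex.continuous_ofReal.comp (hF.comp ?_)
      exact continuous_induced_dom.comp AddCircle.continuous_toCircle⟩
  have hG : G ∈ (Submodule.span ℂ (Set.range (@fourier (1 : ℝ)))).topologicalClosure := by
    rw [span_fourier_closure_eq_top]; trivial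
  have hG' : G ∈ closure ((Submodule.span ℂ (Set.range (@fourier (1 : ℝ))) :
      Set (C(AddCircle (1 : ℝ), ℂ)))) := hG
  rw [Metric.mem_closure_iff] at hG'
  obtain ⟨g, hg, hgd⟩ := hG' τ hτ
  obtain ⟨B, hB⟩ := span_re g hg 1
  refine ⟨B, fun z hz => ?_⟩
  let w : Circle := ⟨z, mem_sphere_zero_iff_norm.2 hz⟩
  let x : AddCircle (1 : ℝ) := (AddCircle.homeomorphCircle (one_ne_zero : (1 : ℝ) ≠ 0)).symm w
  have hx : (AddCircle.toCircle x : ℂ) = z := by
    have : AddCircle.toCircle x = w := by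
      rw [← AddCircle.homeomorphCircle_apply (one_ne_zero : (1 : ℝ) ≠ 0) x]
      exact Homeomorph.apply_symm_apply _ _
    rw [this]
  have h1 := hB x
  rw [one_mul, hx] at h1
  rw [← h1]
  have h2 : dist (G x) (g x) ≤ dist G g := ContinuousMap.dist_apply_le_dist x
  have h3 : G x = ((F z : ℝ) : ℂ) := by
    show ((F (AddCircle.toCircle x : ℂ) : ℝ) : ℂ) = _
    rw [hx]
  rw [h3, dist_eq_norm] at h2
  have h4 : |F z - (g x).re| ≤ ‖((F z : ℝ) : ℂ) - g x‖ := by
    have := Complex.abs_re_le_norm (((F z : ℝ) : ℂ) - g x)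
    rwa [Complex.sub_re, Complex.ofReal_re] at this
  linarith

theorem cav_re (B : ℂ[X]) : W802.DS.cav (fun z => (B.eval z).re) = (B.eval 0).re := by
  unfold W802.DS.cav
  have h1 : Real.circleAverage (fun z => B.eval z) 0 1 = B.eval 0 := by
    apply DiffContOnCl.circleAverage
    exact (B.differentiable.diffContOnCl)
  have h2 := Complex.reCLM.circleAverage_comp_comm (f := fun z => B.eval z) (c := 0) (R := 1)
    (B.continuous.continuousOn.circleIntegrable zero_le_one)
  rw [h1] at h2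
  exact h2

theorem cav_sub_le (f g : ℂ → ℝ) (hf : Continuous f) (hg : Continuous g) (τ : ℝ)
    (h : ∀ z : ℂ, ‖z‖ = 1 → |f z - g z| ≤ τ) : |W802.DS.cav f - W802.DS.cav g| ≤ τ := by
  unfold W802.DS.cav
  rw [Real.circleAverage_def, Real.circleAverage_def, smul_eq_mul, smul_eq_mul, ← mul_sub]
  have c1 : Continuous fun t : ℝ => f (circleMap 0 1 t) := hf.comp (continuous_circleMap 0 1)
  have c2 : Continuous fun t : ℝ => g (circleMap 0 1 t) := hg.comp (continuous_circleMap 0 1)
  rw [← intervalIntegral.integral_sub (c1.intervalIntegrable _ _) (c2.intervalIntegrable _ _)]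
  have := intervalIntegral.norm_integral_le_of_norm_le_const (a := (0 : ℝ)) (b := 2 * π) (C := τ)
      (f := fun t : ℝ => f (circleMap 0 1 t) - g (circleMap 0 1 t)) ?_
  · rw [sub_zero, abs_of_nonneg (by positivity : (0 : ℝ) ≤ 2 * π), Real.norm_eq_abs] at this
    rw [abs_mul, abs_of_nonneg (by positivity : (0 : ℝ) ≤ (2 * π)⁻¹)]
    rw [inv_mul_le_iff₀ (by positivity)]
    linarith
  · intro t _
    rw [Real.norm_eq_abs]
    exact h _ (by simp)

theorem approx0 (F : ℂ → ℝ) (hF : Continuous F) (τ : ℝ) (hτ : 0 < τ) :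
    ∃ B : ℂ[X], B.eval 0 = 0 ∧
      ∀ z : ℂ, ‖z‖ = 1 → |(F z - W802.DS.cav F) - (B.eval z).re| < τ := by
  obtain ⟨B, hB⟩ := approx F hF (τ / 2) (half_pos hτ)
  refine ⟨B - C (B.eval 0), by simp, fun z hz => ?_⟩
  have h1 := cav_sub_le F (fun z => (B.eval z).re) hF (Complex.continuous_re.comp B.continuous) (τ / 2)
    (fun z hz => (hB z hz).le)
  rw [cav_re] at h1
  have h2 := hB z hz
  rw [eval_sub, eval_C, Complex.sub_re]
  rw [abs_lt] at h2 ⊢
  rw [abs_le] at h1
  constructor <;> linarith [h1.1, h1.2, h2.1, h2.2]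

/-- dominated convergence to a two-valued function -/
theorem dom (q : ℝ) (hq0 : 0 < q) (hq1 : q < 1) (X : ℝ → ℝ) (hX : Continuous X)
    (φ : ℕ → ℂ → ℝ) (hφ : ∀ n, Continuous (φ n)) (hb : ∀ n z, ‖z‖ = 1 → |φ n z| ≤ 3)
    (h1 : ∀ t : ℝ, 0 < t → t < 2 * π * q →
      Tendsto (fun n => φ n (circleMap 0 1 t)) atTop (𝓝 (1 - q)))
    (h2 : ∀ t : ℝ, 2 * π * q < t → t < 2 * π →
      Tendsto (fun n => φ n (circleMap 0 1 t)) atTop (𝓝 (-q))) :
    Tendsto (fun n => W802.DS.cav (fun z => X (φ n z))) atTop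
      (𝓝 (q * X (1 - q) + (1 - q) * X (-q))) := by
  have hπ := Real.pi_pos
  have hm : 2 * π * q < 2 * π := by nlinarith
  have hm0 : 0 < 2 * π * q := by positivity
  obtain ⟨Cb, hCb⟩ := (isCompact_Icc (a := (-3 : ℝ)) (b := 3)).exists_bound_of_continuousOn
    hX.continuousOn
  have hcont : ∀ n, Continuous fun t : ℝ => X (φ n (circleMap 0 1 t)) := fun n =>
    hX.comp ((hφ n).comp (continuous_circleMap 0 1))
  have hbd : ∀ n, ∀ t : ℝ, ‖X (φ n (circleMap 0 1 t))‖ ≤ Cb := by
    intro n t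
    apply hCb
    have := hb n (circleMap 0 1 t) (by simp)
    rw [abs_le] at this
    exact this
  -- first part
  have p1 : Tendsto (fun n => ∫ t in (0 : ℝ)..2 * π * q, X (φ n (circleMap 0 1 t))) atTop
      (𝓝 (∫ _ in (0 : ℝ)..2 * π * q, X (1 - q))) := by
    refine intervalIntegral.tendsto_integral_filter_of_dominated_convergence (fun _ => Cb)
      (Eventually.of_forall fun n => (hcont n).aestronglyMeasurable) ?_
      intervalIntegrable_const ?_
    · exact Eventually.of_forall fun n => Eventually.of_forall fun t _ => hbd n t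
    · have hne : ∀ᵐ t : ℝ, t ≠ 2 * π * q := by
        exact Measure.ae_ne volume _
      filter_upwards [hne] with t ht htm
      rw [Set.uIoc_of_le hm0.le] at htm
      exact (hX.tendsto _).comp (h1 t htm.1 (lt_of_le_of_ne htm.2 ht))
  have p2 : Tendsto (fun n => ∫ t in (2 * π * q)..2 * π, X (φ n (circleMap 0 1 t))) atTop
      (𝓝 (∫ _ in (2 * π * q)..2 * π, X (-q))) := by
    refine intervalIntegral.tendsto_integral_filter_of_dominated_convergence (fun _ => Cb)
      (Eventually.of_forall fun n => (hcont n).aestronglyMeasurable) ?_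
      intervalIntegrable_const ?_
    · exact Eventually.of_forall fun n => Eventually.of_forall fun t _ => hbd n t
    · have hne : ∀ᵐ t : ℝ, t ≠ 2 * π := by
        exact Measure.ae_ne volume _
      filter_upwards [hne] with t ht htm
      rw [Set.uIoc_of_le hm.le] at htm
      exact (hX.tendsto _).comp (h2 t htm.1 (lt_of_le_of_ne htm.2 ht))
  have p3 := (p1.add p2).const_mul ((2 * π)⁻¹)
  rw [intervalIntegral.integral_const, intervalIntegral.integral_const, smul_eq_mul, smul_eq_mul] at p3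
  have e1 : (2 * π)⁻¹ * ((2 * π * q - 0) * X (1 - q) + (2 * π - 2 * π * q) * X (-q)) =
      q * X (1 - q) + (1 - q) * X (-q) := by
    field_simp
    ring
  rw [e1] at p3
  refine p3.congr fun n => ?_
  unfold W802.DS.cav
  rw [Real.circleAverage_def, smul_eq_mul,
    intervalIntegral.integral_add_adjacent_intervals ((hcont n).intervalIntegrable _ _)
      ((hcont n).intervalIntegrable _ _)]

theorem step (q : ℝ) (hq0 : 0 < q) (hq1 : q < 1) :
    ∃ f : ℕ → ℂ → ℝ, (∀ n, Continuous (f n)) ∧ (∀ n z, -q ≤ f n z ∧ f n z ≤ 1 - q) ∧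
    (∀ t : ℝ, 0 < t → t < 2 * π * q →
      Tendsto (fun n => f n (circleMap 0 1 t)) atTop (𝓝 (1 - q))) ∧
    (∀ t : ℝ, 2 * π * q < t → t < 2 * π →
      Tendsto (fun n => f n (circleMap 0 1 t)) atTop (𝓝 (-q))) := by
  have hπ := Real.pi_pos
  have hm : 2 * π * q < 2 * π := by nlinarith
  have hm0 : 0 < 2 * π * q := by positivity
  set A : Set ℂ := circleMap 0 1 '' Set.Icc (2 * π * q) (2 * π) with hA
  have hAc : IsClosed A := (isCompact_Icc.image (continuous_circleMap 0 1)).isClosed
  have hAn : A.Nonempty := ⟨circleMap 0 1 (2 * π), 2 * π, ⟨hm.le, le_refl _⟩, rfl⟩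
  refine ⟨fun n z => -q + min 1 (n * Metric.infDist z A), ?_, ?_, ?_, ?_⟩
  · intro n
    exact continuous_const.add (continuous_const.min
      (continuous_const.mul (Metric.continuous_infDist_pt A)))
  · intro n z
    have h0 : (0 : ℝ) ≤ n * Metric.infDist z A := mul_nonneg (Nat.cast_nonneg n) Metric.infDist_nonneg
    constructor
    · have : (0 : ℝ) ≤ min 1 (n * Metric.infDist z A) := le_min zero_le_one h0
      linarith
    · have : min 1 (n * Metric.infDist z A) ≤ 1 := min_le_left _ _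
      linarith
  · intro t ht0 ht1
    have hnot : circleMap 0 1 t ∉ A := by
      rintro ⟨s, hs, hst⟩
      have hinj := injOn_circleMap_of_abs_sub_le (a := 0) (b := 2 * π) (R := 1) (c := 0) one_ne_zero
        (by rw [zero_sub, abs_neg, abs_of_pos (by positivity)])
      rw [Set.uIoc_of_le (by positivity)] at hinj
      have hs' : s ∈ Set.Ioc 0 (2 * π) := ⟨lt_of_lt_of_le hm0 hs.1, hs.2⟩
      have ht' : t ∈ Set.Ioc 0 (2 * π) := ⟨ht0, by linarith⟩
      have := hinj hs' ht' hst
      linarith [hs.1]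
    have hpos := (hAc.notMem_iff_infDist_pos hAn).1 hnot
    have hev : ∀ᶠ n : ℕ in atTop, -q + min 1 (n * Metric.infDist (circleMap 0 1 t) A) = 1 - q := by
      obtain ⟨N, hN⟩ := exists_nat_gt (1 / Metric.infDist (circleMap 0 1 t) A)
      filter_upwards [eventually_ge_atTop N] with n hn
      rw [min_eq_left]
      · ring
      · rw [div_lt_iff₀ hpos] at hN
        have : (N : ℝ) ≤ n := by exact_mod_cast hn
        nlinarith
    exact (tendsto_congr' (hev.mono fun n hn => hn)).2 tendsto_const_nhds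
  · intro t ht0 ht1
    have hmem : circleMap 0 1 t ∈ A := ⟨t, ⟨ht0.le, ht1.le⟩, rfl⟩
    have h0 := Metric.infDist_zero_of_mem hmem
    simp only [h0, mul_zero]
    have : min (1 : ℝ) 0 = 0 := min_eq_right zero_le_one
    rw [this, add_zero]
    exact tendsto_const_nhds

theorem main : W802.DS.S_TV := by
  intro q hq0 hq1 X hX ε hε
  obtain ⟨f, hfc, hfb, hf1, hf2⟩ := step q hq0 hq1
  -- means
  have hm : Tendsto (fun n => W802.DS.cav (f n)) atTop (𝓝 0) := by
    have := dom q hq0 hq1 id continuous_id f hfc (fun n z _ => by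
      rw [abs_le]; constructor <;> linarith [(hfb n z).1, (hfb n z).2]) hf1 hf2
    have e : q * id (1 - q) + (1 - q) * id (-q) = 0 := by simp only [id]; ring
    rw [e] at this
    exact this
  have hmb : ∀ n, |W802.DS.cav (f n)| ≤ 1 := by
    intro n
    have := cav_sub_le (f n) (fun _ => 0) (hfc n) continuous_const 1 (fun z _ => by
      rw [sub_zero, abs_le]; constructor <;> linarith [(hfb n z).1, (hfb n z).2])
    have h0 : W802.DS.cav (fun _ => (0 : ℝ)) = 0 := by
      unfold W802.DS.cav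
      rw [Real.circleAverage_def]
      simp
    rwa [h0, sub_zero] at this
  have hex : ∀ n : ℕ, ∃ B : ℂ[X], B.eval 0 = 0 ∧
      ∀ z : ℂ, ‖z‖ = 1 → |(f n z - W802.DS.cav (f n)) - (B.eval z).re| < 1 / ((n : ℝ) + 1) :=
    fun n => approx0 (f n) (hfc n) _ (by positivity)
  choose B hB0 hB using hex
  have hlim : ∀ (t : ℝ) (l : ℝ), Tendsto (fun n => f n (circleMap 0 1 t)) atTop (𝓝 l) →
      Tendsto (fun n => ((B n).eval (circleMap 0 1 t)).re) atTop (𝓝 l) := by
    intro t l hl
    have h1 : Tendsto (fun n => f n (circleMap 0 1 t) - W802.DS.cav (f n)) atTop (𝓝 l) := by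
      have := hl.sub hm
      rwa [sub_zero] at this
    have h2 : Tendsto (fun n => (f n (circleMap 0 1 t) - W802.DS.cav (f n)) -
        ((B n).eval (circleMap 0 1 t)).re) atTop (𝓝 0) := by
      rw [tendsto_zero_iff_abs_tendsto_zero]
      refine squeeze_zero (fun n => abs_nonneg _) (fun n => (hB n _ (by simp)).le) ?_
      exact tendsto_one_div_add_atTop_nhds_zero_nat
    have h3 := h1.sub h2
    rw [sub_zero] at h3
    refine h3.congr fun n => ?_
    ring
  have hle1 : ∀ n : ℕ, 1 / ((n : ℝ) + 1) ≤ 1 := by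
    intro n
    rw [div_le_one (by positivity)]
    linarith [(Nat.cast_nonneg n : (0 : ℝ) ≤ n)]
  have hB3 : ∀ n z, ‖z‖ = 1 → |((B n).eval z).re| ≤ 3 := by
    intro n z hz
    have h1 := hB n z hz
    have h2 := hmb n
    have h3 := hfb n z
    have h4 := hle1 n
    rw [abs_lt] at h1
    rw [abs_le] at h2 ⊢
    constructor <;> linarith [h1.1, h1.2, h2.1, h2.2, h3.1, h3.2]
  have hdom := dom q hq0 hq1 X hX (fun n z => ((B n).eval z).re)
    (fun n => Complex.continuous_re.comp (B n).continuous) hB3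
    (fun t ht0 ht1 => hlim t _ (hf1 t ht0 ht1)) (fun t ht0 ht1 => hlim t _ (hf2 t ht0 ht1))
  rw [Metric.tendsto_atTop] at hdom hm
  obtain ⟨N1, hN1⟩ := hdom ε hε
  obtain ⟨N2, hN2⟩ := hm (1 / 2) (by norm_num)
  set n := max (max N1 N2) 1 with hn
  have hn1 : N1 ≤ n := le_trans (le_max_left _ _) (le_max_left _ _)
  have hn2 : N2 ≤ n := le_trans (le_max_right _ _) (le_max_left _ _)
  have hn3 : 1 ≤ n := le_max_right _ _
  refine ⟨B n, hB0 n, fun z hz => ?_, ?_⟩
  · have h1 := hB n z hz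
    have h2 := hN2 n hn2
    have h3 := hfb n z
    have h4 : 1 / ((n : ℝ) + 1) ≤ 1 / 2 := by
      apply one_div_le_one_div_of_le (by norm_num)
      have : (1 : ℝ) ≤ n := by exact_mod_cast hn3
      linarith
    rw [Real.dist_eq, sub_zero, abs_lt] at h2
    rw [abs_lt] at h1
    rw [abs_le]
    constructor <;> linarith [h1.1, h1.2, h2.1, h2.2, h3.1, h3.2]
  · have := hN1 n hn1
    rwa [Real.dist_eq] at this

end W237.DS.TV
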